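import Pool.Agent.MP_cce4c9_lc.H87.SpecQ

/-! There are finitely many rigid solutions. -/

set_option autoImplicit false

open WithZero Polynomial Finset

namespace Pool.Agent.MP_cce4c9_lc.H50

open Pool.Agent.MP_cce4c9_lc.H87 Pool.Agent.MP_cce4c9_lc.H87.Cv

variable {k : Type} [Field k] {d m : ℕ} {f : k[X]} {C : Cv k d m f}

theorem gg_inf {N : ℕ} {u : C.Qˣ} (h : C.GG (N : ℤ) u) (v : Place k C.Q) (hv : 1 < v.val C.t) :
    v.val ((u : C.Q) * C.s ^ N - algebraMap k C.Q 1) < 1 := by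
  have := h.1 v hv
  rw [zpow_natCast, Units.val_mul, Units.val_pow_eq_pow_val] at this
  rw [map_one]
  exact this

open Classical in
/-- The orders of a solution at the finite places. -/
def Ords (C : Cv k d m f) (l : ℕ) (μ : ℕ → ℕ) (b : ℕ → k) (u : C.Qˣ) : Prop :=
  ∀ v : Place k C.Q, v.val C.t ≤ 1 →
    v.ord (u : C.Q) = (l * ∑ j ∈ range (mm d m) with C.At v (xs m b j), μ j : ℕ)

theorem Ords.ge {l : ℕ} {μ : ℕ → ℕ} {b : ℕ → k} {u : C.Qˣ} (h : Ords C l μ b u)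
    {v : Place k C.Q} (hv : v.val C.t ≤ 1) {j : ℕ} (hj : j < mm d m) (ha : C.At v (xs m b j)) :
    (l : ℤ) * μ j ≤ v.ord (u : C.Q) := by
  classical
  rw [h v hv]
  have : μ j ≤ ∑ j ∈ range (mm d m) with C.At v (xs m b j), μ j :=
    single_le_sum (f := μ) (fun _ _ => Nat.zero_le _) (mem_filter.2 ⟨mem_range.2 hj, ha⟩)
  exact_mod_cast Nat.mul_le_mul_left l this

theorem same_unit {l : ℕ} (hl : 0 < l) (hlk : (l : k) ≠ 0) (hQ : C.QA) (hH : C.HA) (hD : C.DE)
    (hL : C.LO) {μ fx : ℕ → ℕ} (hP : Pt d m μ fx) {b b' : ℕ → k} {u u' : C.HH}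
    (hg : C.Good l u.1) (hg' : C.Good l u'.1) (ho : Ords C l μ b u.1) (ho' : Ords C l μ b' u'.1)
    (hB : Bas f d m b') (hU : Uniq f d m l μ fx b') (hcl : Hl.mk l u = Hl.mk l u')
    (hfx : ∀ j < mm d m, fx j = 1 → ∀ i < m, xs m b j i = xs m b' j i) : u = u' := by
  obtain ⟨φ, hφ⟩ := (Hl.mk_eq_mk l u u').1 hcl
  obtain ⟨n, hn⟩ := φ.2
  have hu : u.1 = u'.1 * φ.1 ^ l := by rw [hφ]; rfl
  have hn0 : n = 0 := by
    have h1 := hD.uniq _ _ _ hg.1 (hu ▸ hg'.1.mul (hn.pow l))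
    have h2 : (l : ℤ) * n = 0 := by omega
    rcases mul_eq_zero.1 h2 with h | h
    · omega
    · exact h
  subst hn0
  obtain ⟨l', rfl⟩ : ∃ l', l = l' + 1 := ⟨l - 1, by omega⟩
  set N := (l' + 1) * N0 d m with hN
  have hy : C.GG (N : ℤ) (u'.1 * φ.1) := by
    have := hg'.1.mul hn
    rwa [add_zero] at this
  have hyl : (u'.1 * φ.1) ^ (l' + 1) = u.1 * u'.1 ^ l' := by
    rw [hu, mul_pow, pow_succ u'.1]
    simp only [mul_comm, mul_left_comm, mul_assoc]
  have hF : ((u'.1 * φ.1 : C.Qˣ) : C.Q) * C.s ^ N ∈ C.FN N := by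
    refine hD.root (l' + 1) N _ hlk hy ?_
    have := hH.mulF _ _ _ _ hg.2.1 (hH.powF _ _ l' hg'.2.1)
    rw [← Units.val_pow_eq_pow_val, hyl, show (l' + 1) * N = N + l' * N by ring]
    refine (congrArg (· ∈ C.FN (N + l' * N)) ?_).mp this
    rw [Units.val_mul, Units.val_pow_eq_pow_val]
    ring
  obtain ⟨c, hc⟩ := (hH.memF N _).1 (sub_mem hF hg'.2.1)
  have hpsi : ((u'.1 * φ.1 : C.Qˣ) : C.Q) - u'.1 = C.psi N c := by
    have h1 : (C.t * C.s) ^ N = 1 := by rw [C.t_mul_s, one_pow]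
    rw [psi, ← hc]
    linear_combination (-(((u'.1 * φ.1 : C.Qˣ) : C.Q) - u'.1)) * h1
  have hc0 : c 0 0 = 0 := by
    obtain ⟨v, hv⟩ := hQ.inf
    refine v.const_eq ((hH.infI v hv).2.2.2.2 N c) ?_
    rw [← hc, map_zero, sub_zero]
    have h1 := gg_inf hy v hv
    have h2 := gg_inf hg'.1 v hv
    refine lt_of_le_of_lt (le_of_eq ?_) ((v.val.map_sub _ _).trans_lt (max_lt h1 h2))
    congr 1
    ring
  have hz := hU c hc0 fun j hj r hr => by
    obtain ⟨v, hv, -, hT⟩ := hL (xs m b' j) (zs m b' j) (hB j hj)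
    have hμ : μ j ≤ mm d m :=
      hP.1 ▸ single_le_sum (f := μ) (fun _ _ => Nat.zero_le _) (mem_range.2 hj)
    refine (hT ((l' + 1) * mm d m) N _ c (Nat.mul_le_mul ?_ hμ)).1 ?_ r hr
    · split_ifs <;> omega
    have hv1 := (hH.atT v _ hv).1
    have h1 := ho'.ge hv1 hj hv
    have h2 : ((l' + 1 : ℕ) : ℤ) * v.ord ((u'.1 * φ.1 : C.Qˣ) : C.Q) =
        v.ord (u.1 : C.Q) + l' * v.ord (u'.1 : C.Q) := by
      rw [← v.ord_pow, ← Units.val_pow_eq_pow_val, hyl, Units.val_mul,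
        v.ord_mul (v.val_unit_ne _) (v.val_unit_ne _), Units.val_pow_eq_pow_val, v.ord_pow]
    have h3 : 0 ≤ v.ord (u.1 : C.Q) := by rw [ho v hv1]; exact Int.natCast_nonneg _
    have h4 : (0 : ℤ) ≤ μ j := Int.natCast_nonneg _
    have h5 : (0 : ℤ) ≤ l' := Int.natCast_nonneg _
    rw [← hpsi]
    refine (v.val.map_sub _ _).trans (max_le ?_ ?_) <;>
      rw [v.val_le_exp (v.val_unit_ne _), neg_neg] <;> split_ifs with h <;> push_cast at h1 h2 ⊢
    · have h6 := ho.ge hv1 hj (fun i hi => by rw [hfx j hj h i hi]; exact hv i hi)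
      push_cast at h6
      refine le_of_mul_le_mul_left (a := (l' : ℤ) + 1) ?_ (by omega)
      nlinarith
    · refine le_of_mul_le_mul_left (a := (l' : ℤ) + 1) ?_ (by omega)
      nlinarith
    · exact h1
    · nlinarith
  have h0 : C.psi N c = 0 := by
    rw [psi, hat, sum_eq_zero, mul_zero]
    intro J hJ
    refine sum_eq_zero fun e he => ?_
    rw [hz J (mem_range.1 hJ) e (by have := mem_range.1 he; omega), map_zero, zero_mul]
  have h1 : u'.1 * φ.1 = u'.1 := Units.ext (sub_eq_zero.1 (hpsi.trans h0))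
  have h2 : φ.1 = 1 := by simpa using h1
  refine Subtype.ext ?_
  rw [hu, h2, one_pow, mul_one]

theorem th_finite (C : Cv k d m f) : {x : k | th (Gc d m) (f.eval x) = 0}.Finite := by
  have hne : ∀ G : ℕ, 0 < G → f ^ G - 1 ≠ 0 := by
    intro G hG h
    have := congrArg natDegree (sub_eq_zero.1 h)
    rw [C.monic.natDegree_pow, C.deg, natDegree_one] at this
    have := C.hd
    rcases Nat.mul_eq_zero.1 ‹G * d = 0› with h | h <;> omega
  have hP : (f ^ Gc d m - 1) * (f ^ (Gc d m + 1) - 1) ≠ 0 :=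
    mul_ne_zero (hne _ (Nat.succ_pos _)) (hne _ (Nat.succ_pos _))
  refine (finite_setOfPred_isRoot hP).subset fun x hx => ?_
  simpa [th] using hx

theorem is_ : StmtIS := by
  intro k _ _ l p d m hl hp _ f C hlp hfin hQ hH hD hL hS μ fx hP
  classical
  have hl0 : 0 < l := hl.1.pos
  have : NeZero l := ⟨hl0.ne'⟩
  have hlk : (l : k) ≠ 0 := fun h =>
    hlp ((Nat.prime_dvd_prime_iff_eq hp.1 hl.1).1 ((CharP.cast_eq_zero_iff k p l).1 h)).symm
  let S := {z : (ℕ → k) × (ℕ → ℕ → k) //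
    Sol f d m l μ z.1 z.2 ∧ Fix f d m fx z.1 ∧ Uniq f d m l μ fx z.1}
  have hex : ∀ z : S, ∃ u : C.HH, C.Good l u.1 ∧ Ords C l μ z.1.1 u.1 := fun z => by
    obtain ⟨u, -, h1, h2⟩ := hS μ z.1.1 z.1.2 hP.1 z.2.1
    exact ⟨⟨u, _, h1.1⟩, h1, h2⟩
  choose uu hgood hord using hex
  have hmem : ∀ z : S, Hl.mk l (uu z) ∈ C.MM l := fun z =>
    mem_MM.2 ⟨uu z, rfl, ⟨N0 d m, by simpa using (hgood z).1⟩, (hgood z).2.2⟩
  let R : Set k := {x : k | th (Gc d m) (f.eval x) = 0}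
  have hR : ∀ z : S, ∀ j < mm d m, fx j = 1 → ∀ i < m, xs m z.1.1 j i ∈ R := by
    intro z j hj h i hi
    show th _ _ = 0
    rw [(z.2.1.1 j hj i hi).1]
    exact z.2.2.1 j hj h
  let key : S → C.MM l × (Fin (mm d m) × Fin m → k) := fun z =>
    (⟨_, hmem z⟩, fun q => if fx q.1 = 1 then xs m z.1.1 q.1 q.2 else 0)
  have hkey : (Set.range key).Finite := by
    refine (Set.finite_univ.prod (Set.Finite.pi' fun _ : Fin (mm d m) × Fin m =>
      (th_finite C).insert 0)).subset ?_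
    rintro _ ⟨z, rfl⟩
    refine ⟨trivial, fun q => ?_⟩
    by_cases h : fx q.1 = 1
    · exact Or.inr (by simpa [key, h, R] using hR z q.1 q.1.2 h q.2 q.2.2)
    · exact Or.inl (by simp [key, h])
  have hfac : uu.FactorsThrough key := by
    intro z z' h
    refine same_unit hl0 hlk hQ hH hD hL hP (hgood z) (hgood z') (hord z) (hord z') z'.2.1.1
      z'.2.2.2 (congrArg (fun a => a.1.1) h) fun j hj hf i hi => ?_
    simpa [key, hf] using congrFun (congrArg Prod.snd h) (⟨j, hj⟩, ⟨i, hi⟩)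
  have huu : (Set.range uu).Finite := by
    refine (hkey.image (Function.extend key uu 1)).subset ?_
    rintro _ ⟨z, rfl⟩
    exact ⟨key z, ⟨z, rfl⟩, hfac.extend_apply _ z⟩
  let W : Set k := ⋃ u ∈ Set.range uu,
    ⋃ v ∈ Function.support fun v : Place k C.Q => v.ord (u.1 : C.Q),
      (fun i => v.ev (C.x i)) '' Set.Iio m
  have hW : W.Finite := huu.biUnion fun u _ => (hQ.fins _).biUnion fun v _ =>
    (Set.finite_Iio m).image _
  have hX : ∀ z : S, ∀ j < mm d m, ∀ i < m, xs m z.1.1 j i ∈ R ∪ W := by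
    intro z j hj i hi
    by_cases h : fx j = 1
    · exact Or.inl (hR z j hj h i hi)
    right
    have hμ : μ j ≠ 0 := fun e => h ((hP.2 j hj).2 e)
    obtain ⟨v, hv, -⟩ := hL _ _ (z.2.1.1 j hj)
    have h1 := (hord z).ge (hH.atT v _ hv).1 hj hv
    have h2 : (0 : ℤ) < (l : ℤ) * μ j := by positivity
    simp only [W, Set.mem_iUnion]
    exact ⟨uu z, ⟨z, rfl⟩, v, (h2.trans_le h1).ne', i, hi, v.ev_eq (hv i hi)⟩
  have hRW : (R ∪ W).Finite := (th_finite C).union hW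
  refine ⟨(hRW.union (hRW.image fun a => ((derivative f).eval a)⁻¹)).toFinset,
    fun b c h1 h2 h3 i hi => ?_⟩
  rw [Set.Finite.mem_toFinset]
  have hm : 0 < 2 * m := by have := C.hm; omega
  have hj : i / (2 * m) < mm d m := Nat.div_lt_of_lt_mul hi
  have hr := Nat.mod_lt i hm
  have hi' := Nat.div_add_mod i (2 * m)
  by_cases h : i % (2 * m) < m
  · left
    have := hX ⟨(b, c), h1, h2, h3⟩ _ hj _ h
    rwa [xs, hi'] at this
  · right
    have hlt : i % (2 * m) - m < m := by omega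
    refine ⟨_, hX ⟨(b, c), h1, h2, h3⟩ _ hj _ hlt, ?_⟩
    have := (h1.1 _ hj _ hlt).2
    rw [zs, show 2 * m * (i / (2 * m)) + m + (i % (2 * m) - m) = i by omega] at this
    exact (eq_inv_of_mul_eq_one_left this).symm

end Pool.Agent.MP_cce4c9_lc.H50
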